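import Pool.Agent.Q62.CC.Main

/-!
# Curved channels: all circular and axial flows between two coaxial cylinders are stopped

Here `j`, `k` are two different coordinates of `ℝ^d` and `r` is the distance from the axis
`x j = x k = 0`. The walls are the two cylinders `r = a` and `r = b` (for `d = 2` two concentric
circles). A bounded domain between them whose uncontrolled boundary lies on the cylinders carries
the restriction of the flow as a trajectory; the control is the trace of the flow on the rest of the
boundary. The pressure of the first part is a multivalued function of the position, so the domain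
must lie in an open set with a (single valued, continuous) polar angle, for example in the space cut
along a half-hyperplane; in the whole shell no flow of this form does it, unless the circular
velocity is zero.
-/

set_option autoImplicit false

namespace Pool.Agent.Results.MP_79abb3_an.CurvedChannels

open Set MeasureTheory Pool.Agent.Q61.NC Pool.Agent.Q62.CC

/-- Let `f`, `h i` be square integrable on `[a, b]` and `U₀ = dat j k f h` the flow with the circular
velocity `f (r)` and the axial components `h i (r)`. In the part of the shell `a ≤ r ≤ b` in an open
set with an angle function it is brought to rest at time `T`, exactly, by a circular and axial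
solution of the Navier-Stokes equations which vanishes on both cylinders. In the whole shell this is
possible if and only if `f` is zero almost everywhere. -/
theorem result : ∀ (d : ℕ) (j k : Fin d) (a b T : ℝ), j ≠ k → 0 < a → a < b → 0 < T →
    (IsOpen (cut j k) ∧ IsAngle j k (cut j k) fun x : Sp d => Complex.arg ⟨x j, x k⟩) ∧
    ∀ (f : ℝ → ℝ) (h : Fin d → ℝ → ℝ), MemLp f 2 (volume.restrict (Icc a b)) →
      (∀ i, MemLp (h i) 2 (volume.restrict (Icc a b))) →
      (∀ (N : Set (Sp d)) (θ : Sp d → ℝ), IsOpen N → IsAngle j k N θ →
        ∃ (Ω : ℝ → ℝ → ℝ) (A : Fin d → ℝ → ℝ → ℝ) (p : ℝ → Sp d → ℝ),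
          StopsIn (shell j k a b ∩ N) (cylinders j k a b) T (dat j k f h) (vel j k Ω A) p) ∧
      ((∃ (Ω : ℝ → ℝ → ℝ) (A : Fin d → ℝ → ℝ → ℝ) (p : ℝ → Sp d → ℝ),
          StopsIn (shell j k a b) (cylinders j k a b) T (dat j k f h) (vel j k Ω A) p) ↔
        f =ᵐ[volume.restrict (Icc a b)] 0) :=
  fun _ _ _ _ _ _ hjk ha hab hT => ⟨cut_angle hjk, fun _ _ hf hh =>
    ⟨fun _ _ hN hθ => channel hjk ha hab hT hh hf hN hθ, whole hjk ha hab hT hh hf⟩⟩

end Pool.Agent.Results.MP_79abb3_an.CurvedChannels
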