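import Pool.Agent.Q61.NC.Pipe

/-!
# Axially symmetric parallel flows in a round pipe are stopped in arbitrarily short time

The flow below is defined in the whole infinite pipe, the wall of which is not controlled at all.
Its restriction to a bounded domain in the pipe is a trajectory of the controlled system if the
uncontrolled part of the boundary of the domain lies on the wall of the pipe; the control is the
trace of the flow on the rest of the boundary, for example on the two ends of a piece of the pipe.
-/

set_option autoImplicit false

namespace Pool.Agent.Results.MP_79abb3_an.PipeFlows

open Pool.Agent.Q61.NC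
open scoped ContDiff

/-- Let `R, T > 0` and let `h` be a function of class `C⁴` with `h (R ^ 2) = 0`. The parallel flow
in the pipe of radius `R` whose axial velocity is `h` of the square of the distance from the axis
(for example Poiseuille flow) is brought to rest at time `T`, exactly, by a parallel solution of the
Navier-Stokes equations which vanishes on the whole wall of the pipe. -/
theorem result : ∀ R T : ℝ, 0 < R → 0 < T → ∀ h : ℝ → ℝ, ContDiff ℝ 4 h → h (R ^ 2) = 0 →
    ∃ (u : ℝ → Sp 3 → Sp 3) (p : ℝ → Sp 3 → ℝ),
      PipeStops R T (fun x => EuclideanSpace.single 2 (h (x 0 ^ 2 + x 1 ^ 2))) u p :=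
  fun _ _ hR hT _ hh hw => pipe_stops hR hT hh hw

end Pool.Agent.Results.MP_79abb3_an.PipeFlows
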