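import Pool.Agent.Q61.NC.Plate

/-!
# Between two walls shear flows whose odd part has a fixed direction are stopped in short time

Here `j`, `k`, `l` are three different coordinates, so the dimension is at least three, and the
walls are the two hyperplanes `x j = -a` and `x j = a`. The flow is defined in the part of the slab
between them where `|x l| ≤ b`; it depends on the coordinates `j` and `l`. Its restriction to a
bounded domain in this part is a trajectory of the controlled system if the uncontrolled part of the
boundary of the domain lies on the walls; the control is the trace of the flow on the rest of the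
boundary. Each bounded domain in the slab lies in this part for large `b`.
-/

set_option autoImplicit false

namespace Pool.Agent.Results.MP_79abb3_an.PlateFlows

open Set MeasureTheory Pool.Agent.Q61.NC

/-- Let `j`, `k`, `l` be three different coordinates, `a, b, T > 0`, and let `U₀`, square integrable
on `[-a, a]`, be a profile with values parallel to the hyperplane `x j = 0` all the components of
which, the component `k` excepted, are even almost everywhere. Then the shear flow `U₀ (x j)` is
brought to rest at time `T`, exactly, by a solution of the Navier-Stokes equations in the part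
`|x l| ≤ b` of the slab `|x j| ≤ a` which vanishes on both walls. -/
theorem result : ∀ (d : ℕ) (j k l : Fin d), j ≠ k → j ≠ l → k ≠ l →
    ∀ a b T : ℝ, 0 < a → 0 < b → 0 < T → ∀ U₀ : ℝ → Sp d, (∀ y, U₀ y j = 0) →
    MemLp U₀ 2 (volume.restrict (Icc (-a) a)) →
    (∀ m, m ≠ k → ∀ᵐ y ∂(volume.restrict (Icc (-a) a)), U₀ (-y) m = U₀ y m) →
    ∃ (u : ℝ → Sp d → Sp d) (p : ℝ → Sp d → ℝ),
      StopsIn (plates j l a b) (twoWalls j l a b) T (fun x => U₀ (x j)) u p :=
  fun _ _ _ _ hjk hjl hkl _ _ _ ha hb hT _ h0 hU heven =>
    plates_stop hjk hjl hkl ha hb hT h0 hU heven

end Pool.Agent.Results.MP_79abb3_an.PlateFlows
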