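import Pool.Agent.Q61.NC.Aff

/-!
# Which shear flows are stopped in finite time by shear flows

The slab consists of the points `x` with `x j` in `[-a, a]`; `W`, a set of at most two numbers,
tells which of the two hyperplanes `x j = -a` and `x j = a` are walls. The flows are defined in the
whole slab. Their restrictions to a bounded domain in the slab are trajectories of the controlled
system if the uncontrolled part of the boundary of the domain lies on the walls; the control is the
trace of the flow on the rest of the boundary.
-/

set_option autoImplicit false

namespace Pool.Agent.Results.MP_79abb3_an.ShearFlows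

open Set MeasureTheory Pool.Agent.Q61.NC

/-- Let `a, T > 0`, let `W` be a subset of `{-a, a}`, and let `U₀`, square integrable on `[-a, a]`,
be a profile whose values are parallel to the hyperplane `x j = 0`. There is a shear solution of the
Navier-Stokes equations in the slab, smooth for positive times, which starts at `U₀ (x j)`, vanishes
on the walls and is at rest from time `T` on, exactly if one of the two hyperplanes is not a wall or
`U₀` is even almost everywhere. -/
theorem result : ∀ (d : ℕ) (j : Fin d) (a T : ℝ), 0 < a → 0 < T → ∀ W : Set ℝ, W ⊆ {-a, a} →
    ∀ U₀ : ℝ → Sp d, (∀ y, U₀ y j = 0) → MemLp U₀ 2 (volume.restrict (Icc (-a) a)) →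
    ((∃ u p, Stops j (Icc (-a) a) W T U₀ u p ∧ Shear j (Icc (-a) a) u) ↔
      (W = {-a, a} → ∀ᵐ y ∂(volume.restrict (Icc (-a) a)), U₀ (-y) = U₀ y)) := by
  intro d j a T ha hT W hW U₀ h0 hU
  constructor
  · rintro ⟨u, p, hS, hsh⟩ rfl
    exact evens_of_stops ha hT h0 hU hS hsh
  · intro h
    by_cases h1 : -a ∈ W
    · by_cases h2 : a ∈ W
      · have hWe : W = {-a, a} := by
          refine Subset.antisymm hW ?_
          rintro y (hy | hy)
          · rw [hy]
            exact h1
          · rw [mem_singleton_iff.1 hy]
            exact h2
        exact stops_two j ha hT hW h0 hU (h hWe)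
      · refine stops_one j ha hT (s := 1) (Or.inl rfl) ?_ h0 hU
        intro y hy
        rcases hW hy with hy' | hy'
        · rw [hy', mem_singleton_iff]
          ring
        · rw [mem_singleton_iff.1 hy'] at hy
          exact absurd hy h2
    · refine stops_one j ha hT (s := -1) (Or.inr rfl) ?_ h0 hU
      intro y hy
      rcases hW hy with hy' | hy'
      · rw [hy'] at hy
        exact absurd hy h1
      · rw [mem_singleton_iff.1 hy', mem_singleton_iff]
        ring

end Pool.Agent.Results.MP_79abb3_an.ShearFlows
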